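import Pool.Agent.Helper78.DT.Goals3

/-!
# The history of a stage
-/

namespace Pool.Agent.Helper56.DT

open Pool.Agent.Helper81.CC Pool.Agent.Helper51.ZP
open scoped Classical

/-- One step, for an action function `f` on the lists. -/
def st (f : List Bool → ℕ) (b : ℕ → Bool) (a : List Bool) : List Bool :=
  if 3 ≤ f a then a ++ [b (f a - 3)] else a

/-- The list is a history. -/
def Hs (f : List Bool → ℕ) (a : List Bool) : Prop := ∀ k < a.length, 3 ≤ f (a.take k)

/-- The list is a history with the right coins. -/
def Gd (f : List Bool → ℕ) (b : ℕ → Bool) (a : List Bool) : Prop :=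
  ∀ k, ∀ h : k < a.length, 3 ≤ f (a.take k) ∧ a[k] = b (f (a.take k) - 3)

lemma Gd.hs {f : List Bool → ℕ} {b : ℕ → Bool} {a : List Bool} (h : Gd f b a) : Hs f a :=
  fun k hk => (h k hk).1

lemma len_le (f : List Bool → ℕ) (w : ℕ) (tree : {a : List Bool | Hs f a}.encard ≤ w)
    (a : List Bool) (ha : Hs f a) : a.length + 1 ≤ w := by
  have hinj : Set.InjOn (fun k => a.take k) ((Finset.range (a.length + 1) : Finset ℕ) : Set ℕ) := by
    intro k hk l hl hkl
    have hk' : k < a.length + 1 := by simpa using hk
    have hl' : l < a.length + 1 := by simpa using hl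
    have h := congrArg List.length hkl
    simp only [List.length_take] at h
    omega
  have hsub : (((Finset.range (a.length + 1)).image (fun k => a.take k) : Finset (List Bool)) :
      Set (List Bool)) ⊆ {a : List Bool | Hs f a} := by
    intro c hc
    obtain ⟨k, hk, rfl⟩ := Finset.mem_image.1 (Finset.mem_coe.1 hc)
    intro j hj
    rw [List.length_take] at hj
    rw [List.take_take, min_eq_left (by omega : j ≤ k)]
    exact ha j (by omega)
  have h1 := (Set.encard_le_encard hsub).trans tree
  rw [Set.encard_coe_eq_coe_finsetCard, Finset.card_image_of_injOn hinj, Finset.card_range] at h1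
  exact_mod_cast h1

lemma gd_nil (f : List Bool → ℕ) (b : ℕ → Bool) : Gd f b [] := fun k h => absurd h (by simp)

lemma gd_st {f : List Bool → ℕ} {b : ℕ → Bool} {a : List Bool} (h : Gd f b a) :
    Gd f b (st f b a) := by
  unfold st
  split_ifs with h3
  · intro k hk
    rw [List.length_append, List.length_singleton] at hk
    rcases Nat.lt_or_ge k a.length with hk' | hk'
    · rw [List.take_append_of_le_length hk'.le, List.getElem_append_left hk']
      exact h k hk'
    · have hke : k = a.length := by omega
      subst hke
      rw [List.take_left']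
      · refine ⟨h3, ?_⟩
        simp
      · rfl
  · exact h

lemma gd_iter (f : List Bool → ℕ) (b : ℕ → Bool) (n : ℕ) : Gd f b ((st f b)^[n] []) := by
  induction n with
  | zero => exact gd_nil f b
  | succ n ih =>
    rw [Function.iterate_succ_apply']
    exact gd_st ih

lemma len_iter (f : List Bool → ℕ) (b : ℕ → Bool) (n : ℕ) :
    ((st f b)^[n] []).length = n ∨ f ((st f b)^[n] []) < 3 := by
  induction n with
  | zero => exact Or.inl rfl
  | succ n ih =>
    rw [Function.iterate_succ_apply']
    generalize (st f b)^[n] [] = a at ih ⊢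
    rcases Nat.lt_or_ge (f a) 3 with h | h
    · right
      unfold st
      rw [if_neg (by omega)]
      exact h
    · left
      unfold st
      rw [if_pos h, List.length_append, List.length_singleton]
      rcases ih with ih | ih
      · rw [ih]
      · omega

lemma iter_take {f : List Bool → ℕ} {b : ℕ → Bool} {a : List Bool} (h : Gd f b a) :
    ∀ k ≤ a.length, (st f b)^[k] [] = a.take k := by
  intro k
  induction k with
  | zero => intro _; simp
  | succ k ih =>
    intro hk
    rw [Function.iterate_succ_apply', ih (by omega)]
    have h1 := h k (by omega)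
    unfold st
    rw [if_pos h1.1, ← h1.2]
    exact (List.take_succ_eq_append_getElem (show k < a.length by omega)).symm

lemma iter_fix {f : List Bool → ℕ} {b : ℕ → Bool} {a : List Bool} (h : Gd f b a) (h3 : f a < 3)
    (j : ℕ) : (st f b)^[a.length + j] [] = a := by
  induction j with
  | zero =>
    rw [Nat.add_zero, iter_take h _ le_rfl, List.take_length]
  | succ j ih =>
    rw [← Nat.add_assoc, Function.iterate_succ_apply', ih]
    unfold st
    rw [if_neg (by omega)]

theorem his_aux (f : List Bool → ℕ) (w : ℕ) (tree : {a : List Bool | Hs f a}.encard ≤ w)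
    (b : ℕ → Bool) (a : List Bool) : (Gd f b a ∧ f a < 3) ↔ a = (st f b)^[w] [] := by
  constructor
  · rintro ⟨h, h3⟩
    have hl := len_le f w tree a h.hs
    obtain ⟨j, rfl⟩ : ∃ j, w = a.length + j := ⟨w - a.length, by omega⟩
    exact (iter_fix h h3 j).symm
  · rintro rfl
    have hg := gd_iter f b w
    refine ⟨hg, ?_⟩
    rcases len_iter f b w with h | h
    · have hl := len_le f w tree _ hg.hs
      omega
    · exact h

theorem his : Pool.Agent.Helper78.DT.HisStmt := by
  intro α _ A x i
  have ht : {a : List Bool | Hs (fun a => A.act (x, i, a)) a}.encard ≤ A.w x := A.tree x i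
  refine ⟨fun a ha => len_le (fun a => A.act (x, i, a)) (A.w x) ht a ha, fun b a => ?_⟩
  exact his_aux (fun a => A.act (x, i, a)) (A.w x) ht b a

end Pool.Agent.Helper56.DT
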